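import Pool.Agent.L0h64.FI.Stm

set_option autoImplicit false

/-! # The Fischer form -/

namespace Pool.Agent.L0h29.FI

open MvPolynomial Pool.Agent.L0h64.FI

theorem fis_eq {σ : Type} (s : σ → ℝ) (p q : MvPolynomial σ ℂ) (T : Finset (σ →₀ ℕ))
    (hT : p.support ⊆ T) :
    fis s p q = ∑ α ∈ T, (fw s α : ℂ) * (starRingEnd ℂ (coeff α p) * coeff α q) := by
  unfold fis
  refine Finset.sum_subset hT fun α _ h => ?_
  rw [notMem_support_iff.1 h, map_zero, zero_mul, mul_zero]

theorem fw_pos {σ : Type} (s : σ → ℝ) (hs : ∀ j, 0 < s j) (α : σ →₀ ℕ) : 0 < fw s α := by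
  unfold fw
  exact Finset.prod_pos fun j _ => mul_pos (by exact_mod_cast Nat.factorial_pos _) (pow_pos (hs j) _)

theorem fw_eq {σ : Type} (s : σ → ℝ) (α : σ →₀ ℕ) (T : Finset σ) (hT : α.support ⊆ T) :
    fw s α = ∏ j ∈ T, ((α j).factorial : ℝ) * s j ^ α j := by
  unfold fw
  refine Finset.prod_subset hT fun j _ h => ?_
  rw [Finsupp.notMem_support_iff.1 h]
  simp

theorem fw_add {σ : Type} (s : σ → ℝ) (j : σ) (α : σ →₀ ℕ) :
    fw s (Finsupp.single j 1 + α) = (α j + 1) * s j * fw s α := by
  classical
  have h1 : α.support ⊆ insert j α.support := Finset.subset_insert _ _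
  have h2 : (Finsupp.single j 1 + α).support ⊆ insert j α.support := by
    refine Finsupp.support_add.trans ?_
    refine Finset.union_subset ?_ h1
    exact Finsupp.support_single_subset.trans (by simp)
  rw [fw_eq s _ _ h1, fw_eq s _ _ h2, ← Finset.mul_prod_erase _ _ (Finset.mem_insert_self j _),
    ← Finset.mul_prod_erase (insert j α.support)
      (fun i => ((α i).factorial : ℝ) * s i ^ α i) (Finset.mem_insert_self j _)]
  have h3 : ∏ i ∈ (insert j α.support).erase j,
      ((((Finsupp.single j 1 + α : σ →₀ ℕ) i).factorial : ℝ) *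
        s i ^ (Finsupp.single j 1 + α : σ →₀ ℕ) i) =
      ∏ i ∈ (insert j α.support).erase j, (((α i).factorial : ℝ) * s i ^ α i) := by
    refine Finset.prod_congr rfl fun i hi => ?_
    have hne : i ≠ j := (Finset.mem_erase.1 hi).1
    have h4 : (Finsupp.single j 1 + α : σ →₀ ℕ) i = α i := by
      rw [Finsupp.add_apply, Finsupp.single_eq_of_ne hne, zero_add]
    rw [h4]
  rw [h3]
  have h5 : (Finsupp.single j 1 + α : σ →₀ ℕ) j = α j + 1 := by
    rw [Finsupp.add_apply, Finsupp.single_eq_same, add_comm]
  rw [h5, Nat.factorial_succ, pow_succ]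
  push_cast
  ring

theorem t_fis1 : FIS1_stm := by
  classical
  intro σ s hs
  refine ⟨?_, ?_, ?_, ?_, ?_⟩
  · intro p p' q
    rw [fis_eq s (p + p') q (p.support ∪ p'.support) support_add,
      fis_eq s p q _ Finset.subset_union_left, fis_eq s p' q _ Finset.subset_union_right,
      ← Finset.sum_add_distrib]
    refine Finset.sum_congr rfl fun α _ => ?_
    rw [coeff_add, map_add]
    ring
  · intro c p q
    rw [fis_eq s (c • p) q p.support support_smul, fis, Finset.mul_sum]
    refine Finset.sum_congr rfl fun α _ => ?_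
    rw [coeff_smul, smul_eq_mul, map_mul]
    ring
  · intro p q
    rw [fis_eq s q p _ (Finset.subset_union_right (s₁ := p.support)),
      fis_eq s p q _ (Finset.subset_union_left (s₂ := q.support)), map_sum]
    refine Finset.sum_congr rfl fun α _ => ?_
    rw [map_mul, map_mul, Complex.conj_conj, Complex.conj_ofReal]
    ring
  · intro p
    rw [fis, Complex.re_sum]
    refine Finset.sum_nonneg fun α _ => ?_
    rw [← Complex.normSq_eq_conj_mul_self, ← Complex.ofReal_mul, Complex.ofReal_re]
    exact mul_nonneg (fw_pos s hs α).le (Complex.normSq_nonneg _)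
  · intro p hp
    have h1 : ∑ α ∈ p.support, fw s α * Complex.normSq (coeff α p) = 0 := by
      have h2 : (((∑ α ∈ p.support, fw s α * Complex.normSq (coeff α p)) : ℝ) : ℂ) = 0 := by
        rw [← hp, fis]
        push_cast
        refine Finset.sum_congr rfl fun α _ => ?_
        rw [Complex.normSq_eq_conj_mul_self]
      exact_mod_cast h2
    have h3 := (Finset.sum_eq_zero_iff_of_nonneg fun α _ =>
      mul_nonneg (fw_pos s hs α).le (Complex.normSq_nonneg _)).1 h1
    ext α
    rw [coeff_zero]
    by_contra h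
    have h4 := h3 α (mem_support_iff.2 h)
    rcases mul_eq_zero.1 h4 with h5 | h5
    · exact (fw_pos s hs α).ne' h5
    · exact h (Complex.normSq_eq_zero.1 h5)

theorem t_fis2 : FIS2_stm := by
  intro σ s hs j p q
  rw [fis, support_X_mul, Finset.sum_map, fis, Finset.mul_sum]
  refine Finset.sum_congr rfl fun α _ => ?_
  rw [addLeftEmbedding_apply, coeff_X_mul, fw_add, coeff_pderiv, add_comm (Finsupp.single j 1) α]
  push_cast
  ring

end Pool.Agent.L0h29.FI
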